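import Pool.Agent.SKQ.Kit

/-!
# MP_183729_an, squad SKQ, row IBP: integration by parts
-/

set_option autoImplicit false

namespace Pool.Agent.SKQ.H69I

open Metric Set Filter Topology MeasureTheory
open scoped ENNReal
open Helper22QC Pool.Agent.SKQ

variable {n : ℕ}

theorem sum_single (v : E n) : ∑ i, v i • (EuclideanSpace.single i (1 : ℝ) : E n) = v := by
  have := (EuclideanSpace.basisFun (Fin n) ℝ).sum_repr v
  simpa using this

theorem lin_eq (l : E n →L[ℝ] ℝ) (v : E n) :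
    l v = ∑ i, v i * l (EuclideanSpace.single i 1) := by
  conv_lhs => rw [← sum_single v]
  rw [map_sum]
  simp

theorem smooth_ibp (A : E n → E n) (φ : E n → ℝ) (hA : ContDiff ℝ (⊤ : ℕ∞) A)
    (hφ : ContDiff ℝ (⊤ : ℕ∞) φ) (hc : HasCompactSupport φ) :
    ∫ y, inner ℝ (A y) (gr (fderiv ℝ φ y)) = - ∫ y, φ y * dv A y := by
  have hAd : Differentiable ℝ A := hA.differentiable (by simp)
  have hφd : Differentiable ℝ φ := hφ.differentiable (by simp)
  have hφ' : Continuous (fderiv ℝ φ) := hφ.continuous_fderiv (by simp)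
  have hA' : Continuous (fderiv ℝ A) := hA.continuous_fderiv (by simp)
  have hAc : ∀ i, Continuous fun y => A y i := fun i =>
    (EuclideanSpace.proj i : E n →L[ℝ] ℝ).continuous.comp hA.continuous
  have hcf : ∀ i y v, fderiv ℝ (fun y => A y i) y v = (fderiv ℝ A y v) i := by
    intro i y v
    have h1 := (EuclideanSpace.proj i : E n →L[ℝ] ℝ).hasFDerivAt.comp y (hAd y).hasFDerivAt
    have h2 : HasFDerivAt (fun y => A y i)
      ((EuclideanSpace.proj i : E n →L[ℝ] ℝ).comp (fderiv ℝ A y)) y := h1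
    rw [h2.fderiv]
    rfl
  have hAi : ∀ i, Differentiable ℝ (fun y => A y i) := fun i =>
    (EuclideanSpace.proj i : E n →L[ℝ] ℝ).differentiable.comp hAd
  have hi1 : ∀ i, Integrable (fun y => (fderiv ℝ A y (EuclideanSpace.single i 1)) i * φ y) := by
    intro i
    refine Continuous.integrable_of_hasCompactSupport ?_ hc.mul_left
    refine Continuous.mul ?_ hφ.continuous
    exact (EuclideanSpace.proj i : E n →L[ℝ] ℝ).continuous.comp (hA'.clm_apply continuous_const)
  have hi2 : ∀ i, Integrable (fun y => A y i * fderiv ℝ φ y (EuclideanSpace.single i 1)) := by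
    intro i
    refine Continuous.integrable_of_hasCompactSupport ?_ ?_
    · exact (hAc i).mul (hφ'.clm_apply continuous_const)
    · exact HasCompactSupport.mul_left
        ((hc.fderiv (𝕜 := ℝ)).comp_left (g := fun l : E n →L[ℝ] ℝ => l (EuclideanSpace.single i 1))
          rfl)
  have h1 : ∀ i, ∫ y, A y i * fderiv ℝ φ y (EuclideanSpace.single i 1) =
      - ∫ y, (fderiv ℝ A y (EuclideanSpace.single i 1)) i * φ y := by
    intro i
    have h2 := integral_mul_fderiv_eq_neg_fderiv_mul_of_integrable (μ := (volume : Measure (E n)))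
      (f := fun y => A y i) (g := φ) (v := EuclideanSpace.single i 1) ?_ (hi2 i) ?_
      (fun y _ => hAi i y) (fun y _ => hφd y)
    · rw [h2]
      simp_rw [hcf]
    · simp_rw [hcf]
      exact hi1 i
    · exact Continuous.integrable_of_hasCompactSupport ((hAc i).mul hφ.continuous) hc.mul_left
  have h2 : ∀ y, inner ℝ (A y) (gr (fderiv ℝ φ y)) =
      ∑ i, A y i * fderiv ℝ φ y (EuclideanSpace.single i 1) := by
    intro y
    rw [inner_gr', lin_eq]
  simp_rw [h2]
  rw [integral_finset_sum _ (fun i _ => hi2 i)]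
  simp_rw [h1]
  rw [Finset.sum_neg_distrib, ← integral_finset_sum _ (fun i _ => hi1 i)]
  congr 1
  refine integral_congr_ae (Eventually.of_forall fun y => ?_)
  simp only [dv]
  rw [Finset.mul_sum]
  refine Finset.sum_congr rfl fun i _ => ?_
  ring

theorem one_add_le {t : ℝ} (ht : 0 ≤ t) (hn : 1 ≤ n) : 1 + t ≤ 2 * (1 + t ^ n) := by
  rcases le_total t 1 with h | h
  · have : 0 ≤ t ^ n := pow_nonneg ht n
    linarith
  · have h1 : t ≤ t ^ n := le_self_pow₀ h (by omega)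
    linarith

/-- row IBP -/
theorem ibp (lim : LIMStmt) : IBPStmt := by
  intro n Ω S f A F Φ hn hΩ hf hS hSΩ hA hΦ hΦ0
  have hap := hf S hSΩ hS
  obtain ⟨f', hf'1, hf'2, hf'3⟩ := hap.ap
  have hAd : Differentiable ℝ A := hA.differentiable (by simp)
  have hA' : Continuous (fderiv ℝ A) := hA.continuous_fderiv (by simp)
  have hΦd : Differentiable ℝ Φ := hΦ.differentiable (by simp)
  have hΦ' : Continuous (fderiv ℝ Φ) := hΦ.continuous_fderiv (by simp)
  have hdv : Continuous (dv A) := by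
    unfold dv
    refine continuous_finset_sum _ fun i _ => ?_
    exact (EuclideanSpace.proj i : E n →L[ℝ] ℝ).continuous.comp (hA'.clm_apply continuous_const)
  have hd0 : ∀ y, y ∉ S → ∀ z, fderiv ℝ Φ (y, z) = 0 := by
    intro y hy z
    have h1 : Φ =ᶠ[𝓝 (y, z)] fun _ => 0 := by
      have h2 : (Prod.fst ⁻¹' Sᶜ : Set (E n × E n)) ∈ 𝓝 (y, z) :=
        (hS.isClosed.isOpen_compl.preimage continuous_fst).mem_nhds hy
      filter_upwards [h2] with w hw
      exact hΦ0 w.1 hw w.2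
    rw [h1.fderiv_eq]
    simp
  have hg0 : ∀ (g : E n → E n) (G : E n → Mt n) (y : E n), y ∉ S → grc Φ g G y = 0 := by
    intro g G y hy
    unfold grc
    rw [hd0 y hy, ContinuousLinearMap.zero_comp, gr_zero]
  obtain ⟨P₁, hP₁⟩ : ∃ P₁ : E n × E n × Mt n → ℝ, P₁ = fun q => inner ℝ (A q.1)
    (gr ((fderiv ℝ Φ (q.1, q.2.1)).comp ((ContinuousLinearMap.id ℝ (E n)).prod q.2.2))) := ⟨_, rfl⟩
  obtain ⟨P₂, hP₂⟩ : ∃ P₂ : E n × E n × Mt n → ℝ, P₂ = fun q => Φ (q.1, q.2.1) * dv A q.1 :=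
    ⟨_, rfl⟩
  have hP₁c : Continuous P₁ := by
    rw [hP₁]
    refine (hA.continuous.comp continuous_fst).inner (continuous_gr.comp ?_)
    refine Continuous.clm_comp (hΦ'.comp (by fun_prop)) ?_
    have h1 : Continuous fun q : (E n →L[ℝ] E n) × (E n →L[ℝ] E n) => q.1.prod q.2 :=
      (ContinuousLinearMap.prodₗᵢ (𝕜 := ℝ) (E := E n) (F := E n) (G := E n) ℝ).continuous
    exact h1.comp (continuous_const.prodMk (continuous_snd.comp continuous_snd))
  have hP₂c : Continuous P₂ := by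
    rw [hP₂]
    refine (hΦ.continuous.comp (by fun_prop)).mul (hdv.comp continuous_fst)
  have hb₁ : ∀ r : ℝ, ∃ B : ℝ, ∀ y ∈ S, ∀ z : E n, ‖z‖ ≤ r → ∀ M : Mt n,
      |P₁ (y, z, M)| ≤ B * (1 + ‖M‖ ^ n) := by
    intro r
    have hK : IsCompact (S ×ˢ closedBall (0 : E n) r) := hS.prod (isCompact_closedBall _ _)
    have hcont : Continuous fun w : E n × E n => ‖A w.1‖ * ‖fderiv ℝ Φ w‖ :=
      ((hA.continuous.comp continuous_fst).norm).mul hΦ'.norm
    obtain ⟨B, hB⟩ := hK.exists_bound_of_continuousOn hcont.continuousOn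
    refine ⟨2 * B, fun y hy z hz M => ?_⟩
    have h1 := hB (y, z) ⟨hy, by rwa [mem_closedBall_zero_iff]⟩
    rw [Real.norm_of_nonneg (by positivity)] at h1
    have h2 : |P₁ (y, z, M)| ≤ ‖A y‖ * (‖fderiv ℝ Φ (y, z)‖ * (1 + ‖M‖)) := by
      rw [hP₁]
      refine (abs_real_inner_le_norm _ _).trans ?_
      refine mul_le_mul_of_nonneg_left ?_ (norm_nonneg _)
      exact norm_grc_le Φ (fun _ => z) (fun _ => M) y
    have h3 := one_add_le (n := n) (norm_nonneg M) hn
    calc |P₁ (y, z, M)| ≤ ‖A y‖ * (‖fderiv ℝ Φ (y, z)‖ * (1 + ‖M‖)) := h2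
      _ = (‖A y‖ * ‖fderiv ℝ Φ (y, z)‖) * (1 + ‖M‖) := by ring
      _ ≤ (‖A y‖ * ‖fderiv ℝ Φ (y, z)‖) * (2 * (1 + ‖M‖ ^ n)) :=
          mul_le_mul_of_nonneg_left h3 (by positivity)
      _ ≤ B * (2 * (1 + ‖M‖ ^ n)) := mul_le_mul_of_nonneg_right h1 (by positivity)
      _ = 2 * B * (1 + ‖M‖ ^ n) := by ring
  have hb₂ : ∀ r : ℝ, ∃ B : ℝ, ∀ y ∈ S, ∀ z : E n, ‖z‖ ≤ r → ∀ M : Mt n,
      |P₂ (y, z, M)| ≤ B * (1 + ‖M‖ ^ n) := by
    intro r
    have hK : IsCompact (S ×ˢ closedBall (0 : E n) r) := hS.prod (isCompact_closedBall _ _)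
    have hcont : Continuous fun w : E n × E n => Φ w * dv A w.1 :=
      hΦ.continuous.mul (hdv.comp continuous_fst)
    obtain ⟨B, hB⟩ := hK.exists_bound_of_continuousOn hcont.continuousOn
    refine ⟨B, fun y hy z hz M => ?_⟩
    have h1 := hB (y, z) ⟨hy, by rwa [mem_closedBall_zero_iff]⟩
    rw [Real.norm_eq_abs] at h1
    have h2 : 0 ≤ B := (abs_nonneg _).trans h1
    have h3 : 0 ≤ ‖M‖ ^ n := by positivity
    rw [hP₂]
    refine h1.trans ?_
    nlinarith
  obtain ⟨hi₁, ht₁⟩ := lim n S f F f' P₁ hn hS hap.meas hap.int hf'1 hf'2 hf'3 hP₁c hb₁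
  obtain ⟨hi₂, ht₂⟩ := lim n S f F f' P₂ hn hS hap.meas hap.int hf'1 hf'2 hf'3 hP₂c hb₂
  have hv₁ : ∀ (g : E n → E n) (G : E n → Mt n) (y : E n), y ∉ S → P₁ (y, g y, G y) = 0 := by
    intro g G y hy
    have h1 := hg0 g G y hy
    rw [hP₁]
    unfold grc at h1
    simp only
    rw [h1, inner_zero_right]
  have hv₂ : ∀ (g : E n → E n) (G : E n → Mt n) (y : E n), y ∉ S → P₂ (y, g y, G y) = 0 := by
    intro g G y hy
    rw [hP₂]
    simp only
    rw [hΦ0 y hy, zero_mul]
  have hk : ∀ k, ∫ y in S, P₁ (y, f' k y, fderiv ℝ (f' k) y) =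
      - ∫ y in S, P₂ (y, f' k y, fderiv ℝ (f' k) y) := by
    intro k
    rw [setIntegral_eq_integral_of_forall_compl_eq_zero (fun y hy => hv₁ _ _ y hy),
      setIntegral_eq_integral_of_forall_compl_eq_zero (fun y hy => hv₂ _ _ y hy)]
    have hfd : Differentiable ℝ (f' k) := (hf'1 k).differentiable (by simp)
    have hsm : ContDiff ℝ (⊤ : ℕ∞) (fun y => Φ (y, f' k y)) := hΦ.comp (contDiff_id.prodMk (hf'1 k))
    have hsc : HasCompactSupport (fun y => Φ (y, f' k y)) :=
      HasCompactSupport.intro hS (fun y hy => hΦ0 y hy _)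
    have h1 := smooth_ibp A (fun y => Φ (y, f' k y)) hA hsm hsc
    have h2 : ∀ y, fderiv ℝ (fun y => Φ (y, f' k y)) y = (fderiv ℝ Φ (y, f' k y)).comp
        ((ContinuousLinearMap.id ℝ (E n)).prod (fderiv ℝ (f' k) y)) := by
      intro y
      have h3 : HasFDerivAt (fun y => (y, f' k y))
          ((ContinuousLinearMap.id ℝ (E n)).prod (fderiv ℝ (f' k) y)) y :=
        (hasFDerivAt_id y).prodMk (hfd y).hasFDerivAt
      exact ((hΦd (y, f' k y)).hasFDerivAt.comp y h3).fderiv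
    simp_rw [h2] at h1
    rw [hP₁, hP₂]
    exact h1
  have hlim := tendsto_nhds_unique ht₁ (by
    simp_rw [hk]
    exact ht₂.neg)
  have hs₁ : ∀ y, y ∉ S → inner ℝ (A y) (grc Φ f F y) = 0 := by
    intro y hy
    rw [hg0 f F y hy, inner_zero_right]
  have hs₂ : ∀ y, y ∉ S → Φ (y, f y) * dv A y = 0 := by
    intro y hy
    rw [hΦ0 y hy, zero_mul]
  have e₁ : (fun y => P₁ (y, f y, F y)) = fun y => inner ℝ (A y) (grc Φ f F y) := by
    rw [hP₁]
    rfl
  have e₂ : (fun y => P₂ (y, f y, F y)) = fun y => Φ (y, f y) * dv A y := by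
    rw [hP₂]
  rw [e₁] at hi₁ hlim
  rw [e₂] at hlim
  refine ⟨?_, ?_⟩
  · have h1 : Integrable (fun y => inner ℝ (A y) (grc Φ f F y)) := by
      refine (integrableOn_iff_integrable_of_support_subset ?_).1 hi₁
      intro y hy
      by_contra hyS
      exact hy (hs₁ y hyS)
    exact h1.integrableOn
  · rw [setIntegral_eq_integral_of_forall_compl_eq_zero (fun y hy => hs₁ y fun h => hy (hSΩ h)),
      setIntegral_eq_integral_of_forall_compl_eq_zero (fun y hy => hs₂ y fun h => hy (hSΩ h)),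
      ← setIntegral_eq_integral_of_forall_compl_eq_zero (s := S) (fun y hy => hs₁ y hy),
      ← setIntegral_eq_integral_of_forall_compl_eq_zero (s := S) (fun y hy => hs₂ y hy)]
    exact hlim

end Pool.Agent.SKQ.H69I
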