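import Pool.Agent.SKQ.Stmts

/-!
# MP_183729_an, squad SKQ, row NAF: small oscillation implies nearly affine
-/

set_option autoImplicit false

namespace Pool.Agent.SKQ.H69A

open Metric Set Filter Topology MeasureTheory
open scoped ENNReal
open Helper22QC Pool.Agent.SKQ

variable {n : ℕ}

theorem ae_pull (A : Mt n) (hA : A.det ≠ 0) (x : E n) (ρ : ℝ) (hρ : ρ ≠ 0) (p : E n → Prop)
    (h : ∀ᵐ y, p y) : ∀ᵐ y, p (x + ρ • A y) := by
  have hd : LinearMap.det (((ρ • A : Mt n)) : E n →ₗ[ℝ] E n) ≠ 0 := by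
    rw [ContinuousLinearMap.toLinearMap_smul, LinearMap.det_smul]
    exact mul_ne_zero (pow_ne_zero _ hρ) hA
  have h1 : Measure.QuasiMeasurePreserving (fun y : E n => (ρ • A : Mt n) y) volume volume :=
    Measure.LinearMap.quasiMeasurePreserving volume ((ρ • A : Mt n) : E n →ₗ[ℝ] E n) hd
  have h2 : Measure.QuasiMeasurePreserving (fun y : E n => x + y) volume volume :=
    (measurePreserving_add_left volume x).quasiMeasurePreserving
  exact (h2.comp h1).ae h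

/-- row NAF -/
theorem naf (stb : STBStmt) (glb : GLBStmt) (lcg : LCGStmt) : NAFStmt := by
  intro n κ H hn hκ
  obtain ⟨H', hH'⟩ : ∃ H', H' = max H 1 := ⟨_, rfl⟩
  have hH'1 : 1 ≤ H' := by rw [hH']; exact le_max_right _ _
  have hH'0 : 0 < H' := by linarith
  obtain ⟨ε, R, hε, hε1, hR, hstb⟩ := stb n (κ / H') hn (by positivity)
  refine ⟨ε, hε, fun f hf => ?_⟩
  obtain ⟨hks, F, hF, t, ht, ht1, hA⟩ := hf
  have hH1 : 1 ≤ H := by
    obtain ⟨A, ⟨_, _, h1, h2⟩, _⟩ := hA 0 (by simp)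
    have h3 := h2 (EuclideanSpace.single (⟨0, by omega⟩ : Fin n) (1 : ℝ))
    have h4 := A.le_opNorm (EuclideanSpace.single (⟨0, by omega⟩ : Fin n) (1 : ℝ))
    rw [EuclideanSpace.norm_single, norm_one] at h3 h4
    linarith
  have hHH : H' = H := by rw [hH']; exact max_eq_left hH1
  rw [hHH] at hstb hH'0
  have hH0 : 0 < H := hH'0
  obtain ⟨K, hglo, hvol⟩ := glb n ε H f F t hn hε hε1 hks hF ht ht1 hA
  refine ⟨hks, fun ε₀ hε₀ => ?_⟩
  have hR0 : 0 < R := by linarith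
  obtain ⟨e, he⟩ : ∃ e, e = min (ε₀ / 2) (t / (H * R)) := ⟨_, rfl⟩
  have he0 : 0 < e := by
    rw [he]
    exact lt_min (by linarith) (by positivity)
  have he1 : e < ε₀ := by
    rw [he]
    exact (min_le_left _ _).trans_lt (by linarith)
  have he2 : e * (H * R) ≤ t := by
    have h1 : e ≤ t / (H * R) := by
      rw [he]
      exact min_le_right _ _
    rwa [le_div_iff₀ (by positivity)] at h1
  refine ⟨e, he0, he1, fun x hx => ?_⟩
  obtain ⟨A, ⟨_, hAdet, hAn, hAl⟩, hAae⟩ := hA x hx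
  rw [mul_one] at hAn
  have hx0 : 0 < 1 - ‖(x : E n)‖ := by linarith
  obtain ⟨ρ, hρ⟩ : ∃ ρ, ρ = e * (1 - ‖(x : E n)‖) := ⟨_, rfl⟩
  have hρ0 : 0 < ρ := by
    rw [hρ]
    positivity
  rw [← hρ]
  -- size of the image
  have hsz : ∀ y ∈ ball (0 : E n) R, ‖ρ • A y‖ < t * (1 - ‖(x : E n)‖) := by
    intro y hy
    rw [mem_ball_zero_iff] at hy
    rw [norm_smul, Real.norm_of_nonneg hρ0.le]
    have h1 : ‖A y‖ ≤ H * ‖y‖ := (A.le_opNorm y).trans (mul_le_mul_of_nonneg_right hAn (norm_nonneg _))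
    calc ρ * ‖A y‖ ≤ ρ * (H * ‖y‖) := mul_le_mul_of_nonneg_left h1 hρ0.le
      _ < ρ * (H * R) := by
          refine mul_lt_mul_of_pos_left (mul_lt_mul_of_pos_left hy hH0) hρ0
      _ = (e * (H * R)) * (1 - ‖(x : E n)‖) := by rw [hρ]; ring
      _ ≤ t * (1 - ‖(x : E n)‖) := mul_le_mul_of_nonneg_right he2 hx0.le
  have hsz1 : ∀ y ∈ ball (0 : E n) R, (x : E n) + ρ • A y ∈ ball (0 : E n) 1 := by
    intro y hy
    rw [mem_ball_zero_iff]
    have h1 := hsz y hy
    have h2 := norm_add_le (x : E n) (ρ • A y)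
    have h3 : t * (1 - ‖(x : E n)‖) ≤ 1 * (1 - ‖(x : E n)‖) := mul_le_mul_of_nonneg_right ht1 hx0.le
    linarith
  have hsz2 : ∀ y ∈ ball (0 : E n) R, (x : E n) + ρ • A y ∈ ball (x : E n) (t * (1 - ‖(x : E n)‖)) := by
    intro y hy
    rw [mem_ball, dist_eq_norm, add_sub_cancel_left]
    exact hsz y hy
  have hloc := lcg n K (1 + ε) R ρ (exf f) F x A (by omega) hglo hvol hR0 hρ0 hAdet hsz1 (by
    filter_upwards [ae_pull A hAdet.ne' (x : E n) ρ hρ0.ne' _ hAae] with y hy hyR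
    exact hy (hsz2 y hyR))
  obtain ⟨L, m, ⟨hm, hLdet, hLn, hLl⟩, hcl⟩ := hstb _ _ hloc
  obtain ⟨B, hB⟩ : ∃ B : E n ≃L[ℝ] E n, (B : Mt n) = A :=
    ⟨A.toContinuousLinearEquivOfDetNeZero hAdet.ne', by ext v; rfl⟩
  have hAB : ∀ v, A (B.symm v) = v := by
    intro v
    rw [← hB]
    exact B.apply_symm_apply v
  have hBl : ∀ v, ‖B.symm v‖ ≤ ‖v‖ := by
    intro v
    have h1 := hAl (B.symm v)
    rwa [hAB, one_mul] at h1
  have hBu : ∀ v, ‖v‖ ≤ H * ‖B.symm v‖ := by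
    intro v
    have h1 := A.le_opNorm (B.symm v)
    rw [hAB] at h1
    exact h1.trans (mul_le_mul_of_nonneg_right hAn (norm_nonneg _))
  refine ⟨ρ⁻¹ • (L.comp (B.symm : Mt n)), m / (ρ * H), ⟨by positivity, ?_, ?_, ?_⟩, ?_⟩
  · have h1 : A.det * (B.symm : Mt n).det = 1 := by
      have h2 : A.comp (B.symm : Mt n) = ContinuousLinearMap.id ℝ (E n) := by
        ext v : 1
        exact hAB v
      have h3 : (A.comp (B.symm : Mt n)).det = A.det * (B.symm : Mt n).det := by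
        exact LinearMap.det_comp (A : E n →ₗ[ℝ] E n) ((B.symm : Mt n) : E n →ₗ[ℝ] E n)
      rw [← h3, h2]
      unfold ContinuousLinearMap.det
      rw [ContinuousLinearMap.coe_id, LinearMap.det_id]
    have h4 : 0 < (B.symm : Mt n).det := by
      by_contra hcon
      have := mul_nonpos_of_nonneg_of_nonpos hAdet.le (not_lt.1 hcon)
      linarith
    have h5 : (ρ⁻¹ • (L.comp (B.symm : Mt n))).det =
        ρ⁻¹ ^ (Module.finrank ℝ (E n)) * (L.det * (B.symm : Mt n).det) := by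
      have h6 : (L.comp (B.symm : Mt n)).det = L.det * (B.symm : Mt n).det :=
        LinearMap.det_comp (L : E n →ₗ[ℝ] E n) ((B.symm : Mt n) : E n →ₗ[ℝ] E n)
      rw [← h6]
      unfold ContinuousLinearMap.det
      rw [ContinuousLinearMap.toLinearMap_smul, LinearMap.det_smul]
    rw [h5]
    positivity
  · refine ContinuousLinearMap.opNorm_le_bound _ (by positivity) fun v => ?_
    have h1 : (ρ⁻¹ • (L.comp (B.symm : Mt n))) v = ρ⁻¹ • L (B.symm v) := rfl
    rw [h1, norm_smul, Real.norm_of_nonneg (by positivity)]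
    have h2 : ‖L (B.symm v)‖ ≤ 2 * m * ‖v‖ := by
      refine (L.le_opNorm _).trans ?_
      refine mul_le_mul hLn (hBl v) (norm_nonneg _) (by positivity)
    calc ρ⁻¹ * ‖L (B.symm v)‖ ≤ ρ⁻¹ * (2 * m * ‖v‖) := mul_le_mul_of_nonneg_left h2 (by positivity)
      _ = 2 * H * (m / (ρ * H)) * ‖v‖ := by field_simp
  · intro v
    have h1 : (ρ⁻¹ • (L.comp (B.symm : Mt n))) v = ρ⁻¹ • L (B.symm v) := rfl
    rw [h1, norm_smul, Real.norm_of_nonneg (by positivity)]
    have h2 := hLl (B.symm v)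
    have h3 := hBu v
    calc m / (ρ * H) * ‖v‖ ≤ m / (ρ * H) * (H * ‖B.symm v‖) :=
          mul_le_mul_of_nonneg_left h3 (by positivity)
      _ = ρ⁻¹ * (m * ‖B.symm v‖) := by field_simp
      _ ≤ ρ⁻¹ * ‖L (B.symm v)‖ := mul_le_mul_of_nonneg_left h2 (by positivity)
  · intro y hy
    have h1 := hcl (ρ⁻¹ • B.symm ((y : E n) - x)) (by
      rw [mem_closedBall_zero_iff, norm_smul, Real.norm_of_nonneg (by positivity)]
      calc ρ⁻¹ * ‖B.symm ((y : E n) - x)‖ ≤ ρ⁻¹ * ρ :=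
            mul_le_mul_of_nonneg_left ((hBl _).trans hy) (by positivity)
        _ = 1 := inv_mul_cancel₀ hρ0.ne')
    have h2 : (x : E n) + ρ • A (ρ⁻¹ • B.symm ((y : E n) - x)) = y := by
      rw [map_smul, hAB, smul_smul, mul_inv_cancel₀ hρ0.ne', one_smul, add_sub_cancel]
    have h3 : (x : E n) + ρ • A 0 = x := by
      rw [map_zero, smul_zero, add_zero]
    have h4 : ∀ z : CB n, exf f (z : E n) = f z := by
      intro z
      unfold exf
      rw [dif_pos z.2]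
    simp only [h2, h3, h4] at h1
    have h5 : (ρ⁻¹ • (L.comp (B.symm : Mt n))) ((y : E n) - x) = L (ρ⁻¹ • B.symm ((y : E n) - x)) := by
      rw [map_smul]
      rfl
    rw [h5]
    refine h1.trans (le_of_eq ?_)
    field_simp

end Pool.Agent.SKQ.H69A
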