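import Pool.Agent.SKQ.Kit

/-!
# MP_183729_an, squad SKQ, row NLF: the null Lagrangian identity
-/

set_option autoImplicit false

namespace Pool.Agent.SKQ.H69N

open Metric Set Filter Topology MeasureTheory
open scoped ENNReal
open Helper22QC Pool.Agent.SKQ

variable {n : ℕ}

theorem sum_single (v : E n) : ∑ i, v i • (EuclideanSpace.single i (1 : ℝ) : E n) = v := by
  have := (EuclideanSpace.basisFun (Fin n) ℝ).sum_repr v
  simpa using this

theorem lin_eq {V : Type*} [AddCommGroup V] [Module ℝ V] [TopologicalSpace V] (l : E n →L[ℝ] V)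
    (v : E n) : l v = ∑ i, v i • l (EuclideanSpace.single i 1) := by
  conv_lhs => rw [← sum_single v]
  rw [map_sum]
  simp

/-- the matrix of a linear map -/
noncomputable def mx (M : Mt n) : Matrix (Fin n) (Fin n) ℝ :=
  LinearMap.toMatrix (bs n) (bs n) (M : E n →ₗ[ℝ] E n)

theorem mx_apply (M : Mt n) (j k : Fin n) : mx M j k = (M (EuclideanSpace.single k 1)) j := by
  unfold mx
  rw [LinearMap.toMatrix_apply]
  simp

theorem mx_det (M : Mt n) : (mx M).det = M.det := by
  unfold mx
  rw [LinearMap.det_toMatrix]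

theorem adjV_apply (M : Mt n) (v : E n) (k : Fin n) :
    (adjV M v) k = ∑ i, (mx M).adjugate k i * v i := by
  have h1 : (bs n).repr (adjV M v) = (mx M).adjugate.mulVec ((bs n).repr v) := by
    have h2 := LinearMap.toMatrix_mulVec_repr (bs n) (bs n)
      (Matrix.toLin (bs n) (bs n) (mx M).adjugate) v
    rw [LinearMap.toMatrix_toLin] at h2
    rw [h2]
    rfl
  have h3 := congrFun h1 k
  simp only [Matrix.mulVec, dotProduct] at h3
  simpa using h3

theorem det_updateRow (A : Matrix (Fin n) (Fin n) ℝ) (i : Fin n) (b : Fin n → ℝ) :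
    (A.updateRow i b).det = ∑ k, A.adjugate k i * b k := by
  rw [← Matrix.cramer_transpose_apply, Matrix.cramer_eq_adjugate_mulVec, ← Matrix.adjugate_transpose]
  rfl

theorem hasFDerivAt_coord {g : E n → E n} {y : E n} (hg : DifferentiableAt ℝ g y) (j : Fin n) :
    HasFDerivAt (fun z => g z j) ((EuclideanSpace.proj j : E n →L[ℝ] ℝ).comp (fderiv ℝ g y)) y :=
  (EuclideanSpace.proj j : E n →L[ℝ] ℝ).hasFDerivAt.comp y hg.hasFDerivAt

theorem fderiv_coord {g : E n → E n} {y : E n} (hg : DifferentiableAt ℝ g y) (j : Fin n) (v : E n) :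
    fderiv ℝ (fun z => g z j) y v = (fderiv ℝ g y v) j := by
  rw [(hasFDerivAt_coord hg j).fderiv]
  rfl

/-- pointwise algebra -/
theorem alg (M D : Mt n) (l : E n →L[ℝ] ℝ) (s : ℝ) (w : E n) :
    ∑ i, ((mx M).updateRow i (fun k => s * (D (M (EuclideanSpace.single k 1))) i +
      w i * l (EuclideanSpace.single k 1))).det =
      l (adjV M w) + s * (∑ i, (D (EuclideanSpace.single i 1)) i) * M.det := by
  simp_rw [det_updateRow, mul_add, Finset.sum_add_distrib]
  rw [add_comm]
  congr 1
  · rw [lin_eq l (adjV M w), Finset.sum_comm]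
    refine Finset.sum_congr rfl fun k _ => ?_
    rw [adjV_apply, smul_eq_mul, Finset.sum_mul]
    refine Finset.sum_congr rfl fun i _ => ?_
    ring
  · rw [Finset.mul_sum, Finset.sum_mul]
    refine Finset.sum_congr rfl fun i _ => ?_
    have h1 : ∀ k, (D (M (EuclideanSpace.single k 1))) i =
        ∑ j, mx M j k * (D (EuclideanSpace.single j 1)) i := by
      intro k
      rw [lin_eq D (M (EuclideanSpace.single k 1))]
      simp [mx_apply]
    have h2 : ∀ j, ∑ k, mx M j k * (mx M).adjugate k i = if j = i then M.det else 0 := by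
      intro j
      have h3 := congrFun (congrFun (Matrix.mul_adjugate (mx M)) j) i
      rw [Matrix.mul_apply] at h3
      rw [h3, mx_det, Matrix.smul_apply, Matrix.one_apply]
      simp
    calc ∑ k, (mx M).adjugate k i * (s * (D (M (EuclideanSpace.single k 1))) i)
        = ∑ k, ∑ j, s * ((D (EuclideanSpace.single j 1)) i * (mx M j k * (mx M).adjugate k i)) := by
          refine Finset.sum_congr rfl fun k _ => ?_
          rw [h1 k, Finset.mul_sum, Finset.mul_sum]
          refine Finset.sum_congr rfl fun j _ => ?_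
          ring
      _ = ∑ j, s * ((D (EuclideanSpace.single j 1)) i * ∑ k, mx M j k * (mx M).adjugate k i) := by
          rw [Finset.sum_comm]
          refine Finset.sum_congr rfl fun j _ => ?_
          rw [Finset.mul_sum, Finset.mul_sum]
      _ = s * (D (EuclideanSpace.single i 1)) i * M.det := by
          simp_rw [h2]
          rw [Finset.sum_eq_single i]
          · simp [mul_assoc]
          · intro j _ hj
            simp [hj]
          · simp

/-- the test map -/
noncomputable def tm (f G : E n → E n) (φ ψ : E n → ℝ) (i : Fin n) (y : E n) : E n :=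
  WithLp.toLp 2 (fun j => if j = i then φ y * G (f y) i else ψ y * f y j)

theorem tm_same (f G : E n → E n) (φ ψ : E n → ℝ) (i : Fin n) (y : E n) :
    tm f G φ ψ i y i = φ y * G (f y) i := by
  simp [tm]

theorem tm_ne (f G : E n → E n) (φ ψ : E n → ℝ) {i j : Fin n} (h : j ≠ i) (y : E n) :
    tm f G φ ψ i y j = ψ y * f y j := by
  simp [tm, h]

theorem contDiff_coord {g : E n → E n} (hg : ContDiff ℝ (⊤ : ℕ∞) g) (j : Fin n) :
    ContDiff ℝ (⊤ : ℕ∞) (fun z => g z j) :=
  (EuclideanSpace.proj j : E n →L[ℝ] ℝ).contDiff.comp hg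

theorem contDiff_tm {f G : E n → E n} {φ ψ : E n → ℝ} (hf : ContDiff ℝ (⊤ : ℕ∞) f)
    (hG : ContDiff ℝ (⊤ : ℕ∞) G) (hφ : ContDiff ℝ (⊤ : ℕ∞) φ) (hψ : ContDiff ℝ (⊤ : ℕ∞) ψ)
    (i : Fin n) : ContDiff ℝ (⊤ : ℕ∞) (tm f G φ ψ i) := by
  rw [contDiff_euclidean]
  intro j
  by_cases h : j = i
  · subst h
    simp_rw [tm_same]
    exact hφ.mul (contDiff_coord (hG.comp hf) j)
  · simp_rw [tm_ne f G φ ψ h]
    exact hψ.mul (contDiff_coord hf j)

/-- row NLF -/
theorem nlf (nl0 : NL0Stmt) (adj : ADJStmt) : NLFStmt := by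
  intro n f G φ hn hf hG hφ hc
  obtain ⟨C, _, _, hadj, hdet, _⟩ := adj n hn
  have hfd : Differentiable ℝ f := hf.differentiable (by simp)
  have hGd : Differentiable ℝ G := hG.differentiable (by simp)
  have hφd : Differentiable ℝ φ := hφ.differentiable (by simp)
  have hf' : Continuous (fderiv ℝ f) := hf.continuous_fderiv (by simp)
  have hG' : Continuous (fderiv ℝ G) := hG.continuous_fderiv (by simp)
  have hφ' : Continuous (fderiv ℝ φ) := hφ.continuous_fderiv (by simp)
  have hdv : Continuous (dv G) := by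
    unfold dv
    refine continuous_finset_sum _ fun i _ => ?_
    exact (EuclideanSpace.proj i : E n →L[ℝ] ℝ).continuous.comp (hG'.clm_apply continuous_const)
  -- the cut-off
  obtain ⟨r, hr⟩ := (hc.isCompact.isBounded).subset_ball (0 : E n)
  obtain ⟨ψ, hψ, hψc, hψ1⟩ : ∃ ψ : E n → ℝ, ContDiff ℝ (⊤ : ℕ∞) ψ ∧ HasCompactSupport ψ ∧
      ∀ y ∈ tsupport φ, ψ =ᶠ[𝓝 y] fun _ => 1 := by
    have hr1 : 0 < max r 1 := lt_of_lt_of_le one_pos (le_max_right _ _)
    let b : ContDiffBump (0 : E n) := ⟨max r 1, max r 1 + 1, hr1, by linarith⟩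
    refine ⟨b, b.contDiff, b.hasCompactSupport, fun y hy => ?_⟩
    have h1 : y ∈ ball (0 : E n) b.rIn := ball_subset_ball (le_max_left _ _) (hr hy)
    exact b.eventuallyEq_one_of_mem_ball h1
  -- determinant of the derivative of the test map
  have hkey : ∀ (i : Fin n) (y : E n), (fderiv ℝ (tm f G φ ψ i) y).det =
      ((mx (fderiv ℝ f y)).updateRow i (fun k =>
        φ y * (fderiv ℝ G (f y) (fderiv ℝ f y (EuclideanSpace.single k 1))) i +
          G (f y) i * fderiv ℝ φ y (EuclideanSpace.single k 1))).det := by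
    intro i y
    have htd : DifferentiableAt ℝ (tm f G φ ψ i) y :=
      ((contDiff_tm hf hG hφ hψ i).differentiable (by simp)) y
    have hrow : ∀ k, (fderiv ℝ (tm f G φ ψ i) y (EuclideanSpace.single k 1)) i =
        φ y * (fderiv ℝ G (f y) (fderiv ℝ f y (EuclideanSpace.single k 1))) i +
          G (f y) i * fderiv ℝ φ y (EuclideanSpace.single k 1) := by
      intro k
      rw [← fderiv_coord htd]
      simp_rw [tm_same]
      have h1 : HasFDerivAt (fun z => G (f z) i)
          ((EuclideanSpace.proj i : E n →L[ℝ] ℝ).comp ((fderiv ℝ G (f y)).comp (fderiv ℝ f y))) y :=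
        (EuclideanSpace.proj i : E n →L[ℝ] ℝ).hasFDerivAt.comp y
          ((hGd (f y)).hasFDerivAt.comp y (hfd y).hasFDerivAt)
      have h2 : HasFDerivAt (fun z => φ z * G (f z) i) (φ y • ((EuclideanSpace.proj i :
          E n →L[ℝ] ℝ).comp ((fderiv ℝ G (f y)).comp (fderiv ℝ f y))) + G (f y) i • fderiv ℝ φ y) y :=
        (hφd y).hasFDerivAt.mul h1
      rw [h2.fderiv]
      rfl
    by_cases hy : y ∈ tsupport φ
    · rw [← mx_det]
      congr 1
      ext j k
      rw [Matrix.updateRow_apply, mx_apply]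
      split_ifs with h
      · subst h
        exact hrow k
      · rw [← fderiv_coord htd, mx_apply, ← fderiv_coord (hfd y)]
        have h1 : (fun z => tm f G φ ψ i z j) =ᶠ[𝓝 y] fun z => f z j := by
          filter_upwards [hψ1 y hy] with z hz
          rw [tm_ne f G φ ψ h, hz, one_mul]
        rw [h1.fderiv_eq]
    · have h1 : ∀ k, (fderiv ℝ (tm f G φ ψ i) y (EuclideanSpace.single k 1)) i = 0 := by
        intro k
        rw [hrow k, image_eq_zero_of_notMem_tsupport hy]
        have h2 : fderiv ℝ φ y = 0 := by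
          by_contra hcon
          exact hy (support_fderiv_subset ℝ hcon)
        rw [h2]
        simp
      have h3 : (mx (fderiv ℝ (tm f G φ ψ i) y)).det = 0 := by
        refine Matrix.det_eq_zero_of_row_eq_zero i fun k => ?_
        rw [mx_apply]
        exact h1 k
      rw [← mx_det, h3]
      symm
      refine Matrix.det_eq_zero_of_row_eq_zero i fun k => ?_
      rw [Matrix.updateRow_self, ← hrow k]
      exact h1 k
  have hsum : ∀ y, ∑ i, (fderiv ℝ (tm f G φ ψ i) y).det =
      inner ℝ (adjV (fderiv ℝ f y) (G (f y))) (gr (fderiv ℝ φ y)) +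
        φ y * dv G (f y) * (fderiv ℝ f y).det := by
    intro y
    rw [inner_gr']
    simp_rw [hkey]
    exact alg (fderiv ℝ f y) (fderiv ℝ G (f y)) (fderiv ℝ φ y) (φ y) (G (f y))
  have hcs : ∀ i, HasCompactSupport (tm f G φ ψ i) := by
    intro i
    refine HasCompactSupport.intro (hc.isCompact.union hψc.isCompact) fun y hy => ?_
    rw [mem_union, not_or] at hy
    have h1 := image_eq_zero_of_notMem_tsupport hy.1
    have h2 := image_eq_zero_of_notMem_tsupport hy.2
    ext j
    by_cases h : j = i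
    · subst h
      rw [tm_same, h1, zero_mul]
      rfl
    · rw [tm_ne f G φ ψ h, h2, zero_mul]
      rfl
  have hint0 : ∀ i, ∫ y, (fderiv ℝ (tm f G φ ψ i) y).det = 0 := fun i =>
    nl0 n _ hn (contDiff_tm hf hG hφ hψ i) (hcs i)
  have hinti : ∀ i, Integrable (fun y => (fderiv ℝ (tm f G φ ψ i) y).det) := by
    intro i
    refine Continuous.integrable_of_hasCompactSupport ?_ ?_
    · exact hdet.comp ((contDiff_tm hf hG hφ hψ i).continuous_fderiv (by simp))
    · refine ((hcs i).fderiv (𝕜 := ℝ)).comp_left (g := fun M : Mt n => M.det) ?_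
      have : Nonempty (Fin n) := ⟨⟨0, by omega⟩⟩
      rw [← mx_det]
      refine Matrix.det_eq_zero_of_row_eq_zero ⟨0, by omega⟩ fun k => ?_
      rw [mx_apply]
      rfl
  have hI1 : Integrable (fun y => inner ℝ (adjV (fderiv ℝ f y) (G (f y))) (gr (fderiv ℝ φ y))) := by
    refine Continuous.integrable_of_hasCompactSupport ?_ ?_
    · exact ((hadj.comp hf').clm_apply (hG.continuous.comp hf.continuous)).inner
        (continuous_gr.comp hφ')
    · refine HasCompactSupport.intro hc.isCompact fun y hy => ?_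
      have h2 : fderiv ℝ φ y = 0 := by
        by_contra hcon
        exact hy (support_fderiv_subset ℝ hcon)
      rw [h2, gr_zero, inner_zero_right]
  have hI2 : Integrable (fun y => φ y * dv G (f y) * (fderiv ℝ f y).det) := by
    refine Continuous.integrable_of_hasCompactSupport ?_ ?_
    · exact (hφ.continuous.mul (hdv.comp hf.continuous)).mul (hdet.comp hf')
    · exact (hc.mul_right).mul_right
  have h1 : ∫ y, (inner ℝ (adjV (fderiv ℝ f y) (G (f y))) (gr (fderiv ℝ φ y)) +
        φ y * dv G (f y) * (fderiv ℝ f y).det) = 0 := by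
    simp_rw [← hsum]
    rw [integral_finset_sum _ (fun i _ => hinti i)]
    simp [hint0]
  rw [integral_add hI1 hI2] at h1
  linarith

end Pool.Agent.SKQ.H69N
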