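import Pool.Agent.SKQ.Stmts

/-!
# MP_183729_an, squad SKQ, row STB: stability in the Liouville theorem
-/

set_option autoImplicit false

namespace Pool.Agent.SKQ.H69

open Metric Set Filter Topology MeasureTheory
open scoped ENNReal
open Helper22QC Pool.Agent.SKQ

/-- row STB -/
theorem stb (clw : CLWStmt) (nis : NISStmt) (sgn : SGNStmt) : STBStmt := by
  intro n κ hn hκ
  obtain ⟨κ₀, hκ₀, hκ₁, hsgn⟩ := sgn n hn
  obtain ⟨κ', hκ'⟩ : ∃ κ', κ' = min κ κ₀ / 4 := ⟨_, rfl⟩
  have h1 : κ' ≤ κ / 4 := by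
    rw [hκ']
    have := min_le_left κ κ₀
    linarith
  have h2 : κ' ≤ κ₀ / 4 := by
    rw [hκ']
    have := min_le_right κ κ₀
    linarith
  have h3 : 0 < κ' := by
    rw [hκ']
    have := lt_min hκ hκ₀
    linarith
  obtain ⟨θ, η, hθ, hθ1, hη, hnis⟩ := nis n κ' (by omega) h3 (by linarith)
  obtain ⟨ε, R, hε, hε1, hR, hclw⟩ := clw n θ η hn hθ hθ1 hη
  refine ⟨ε, R, hε, hε1, hR, fun f F hf => ?_⟩
  have hsub : closedBall (0 : E n) 1 ⊆ ball 0 R := closedBall_subset_ball (by linarith)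
  obtain ⟨L, m, hm, hL, hfL⟩ := hnis f (hf.inj.mono hsub) (fun c hc y hy y' hy' h4 h5 => by
    have h6 : ∀ z ∈ closedBall (0 : E n) 1, ‖z - c‖ ≤ 2 := by
      intro z hz
      rw [mem_closedBall_zero_iff] at hz hc
      have := norm_sub_le z c
      linarith
    exact hclw f F hf c hc y ⟨h4, h6 y hy⟩ y' ⟨h5, h6 y' hy'⟩)
  have hloc : Loc R 2 f F := by
    refine ⟨hf.sob, hf.cont, hf.inj, hf.op, ?_, hf.vol⟩
    filter_upwards [hf.qc] with y hy hyR
    have h4 := hy hyR
    have h5 : 0 ≤ ‖F y‖ ^ n := by positivity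
    have h6 : 0 ≤ (F y).det := by
      by_contra hcon
      have : (1 + ε) * (F y).det < 0 := mul_neg_of_pos_of_neg (by linarith) (not_le.1 hcon)
      linarith
    nlinarith
  have hnorm : ‖L‖ ≤ (1 + κ') * m :=
    L.opNorm_le_bound (mul_nonneg (by linarith) hm.le) fun v => (hL v).2
  have hdet : 0 < L.det := by
    refine hsgn R m f F L hR hloc hm (fun v => ?_) (hnorm.trans ?_) (fun y hy => ?_)
    · refine le_trans ?_ (hL v).1
      refine mul_le_mul_of_nonneg_right ?_ (norm_nonneg v)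
      nlinarith
    · nlinarith
    · refine (hfL y hy).trans ?_
      exact mul_le_mul_of_nonneg_right (by linarith) hm.le
  refine ⟨L, (1 - κ') * m, ⟨mul_pos (by linarith) hm, hdet, hnorm.trans ?_, fun v => (hL v).1⟩,
    fun y hy => (hfL y hy).trans ?_⟩
  · nlinarith
  · nlinarith [mul_pos hκ hm]

end Pool.Agent.SKQ.H69
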